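import Mathlib

namespace Pool.Agent.Results.MP_d52620_an.NotDense

open MeasureTheory Finset
open scoped symmDiff

open Classical in
/-- amenability of a discrete group, by the Foelner condition -/
def Amen (G : Type) [Group G] : Prop :=
  ∀ (K : Finset G) (ε : ℝ), 0 < ε → ∃ F : Finset G, F.Nonempty ∧
    ∀ g ∈ K, ((F.image (g * ·) ∆ F).card : ℝ) ≤ ε * F.card

def σ (b : Bool) : ℤ := if b then -1 else 1

lemma σ_xor (a b : Bool) : σ (xor a b) = σ a * σ b := by cases a <;> cases b <;> rfl
lemma σ_sq (a : Bool) : σ a * σ a = 1 := by cases a <;> rfl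
lemma σ_abs (a : Bool) : |σ a| = 1 := by cases a <;> rfl

@[ext] structure D where
  e : Bool
  n : ℤ

instance : Mul D := ⟨fun g h => ⟨xor g.e h.e, g.n + σ g.e * h.n⟩⟩
instance : One D := ⟨⟨false, 0⟩⟩
instance : Inv D := ⟨fun g => ⟨g.e, -(σ g.e * g.n)⟩⟩

@[simp] lemma mul_e (g h : D) : (g * h).e = xor g.e h.e := rfl
@[simp] lemma mul_n (g h : D) : (g * h).n = g.n + σ g.e * h.n := rfl
@[simp] lemma one_e : (1 : D).e = false := rfl
@[simp] lemma one_n : (1 : D).n = 0 := rfl
@[simp] lemma inv_e (g : D) : g⁻¹.e = g.e := rfl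
@[simp] lemma inv_n (g : D) : g⁻¹.n = -(σ g.e * g.n) := rfl

instance : Group D := Group.ofLeftAxioms
  (fun a b c => D.ext (by simp) (by simp only [mul_n, mul_e, σ_xor]; ring))
  (fun a => D.ext (by simp) (by simp [σ])) (fun a => D.ext (by simp) (by simp))

noncomputable def box (N : ℕ) : Finset D :=
  (univ ×ˢ Icc (-N : ℤ) N).map ⟨fun p => ⟨p.1, p.2⟩, fun _ _ h => Prod.ext (congrArg D.e h)
    (congrArg D.n h)⟩

lemma mem_box {N : ℕ} {g : D} : g ∈ box N ↔ |g.n| ≤ N := by
  simp only [box, mem_map, mem_product, mem_univ, mem_Icc, true_and, abs_le]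
  exact ⟨by rintro ⟨p, h, rfl⟩; exact h, fun h => ⟨(g.e, g.n), h, rfl⟩⟩

lemma card_box (N : ℕ) : (box N).card = 4 * N + 2 := by
  simp only [box, card_map, card_product, card_univ, Fintype.card_bool, Int.card_Icc]
  omega

lemma amen : Amen D := by
  classical
  intro K ε hε
  obtain ⟨k, hk⟩ := (K.image fun g => g.n.natAbs).bddAbove
  obtain ⟨N, hN⟩ := exists_nat_ge (2 * k / ε)
  refine ⟨box N, ⟨1, mem_box.2 (by simp)⟩, fun g hg => ?_⟩
  have h1 : (box N).image (g * ·) ⊆ box (N + k) := by
    intro x hx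
    obtain ⟨y, hy, rfl⟩ := mem_image.1 hx
    have a1 : g.n.natAbs ≤ k := hk (mem_coe.2 (mem_image_of_mem _ hg))
    have a2 := abs_add_le g.n (σ g.e * y.n)
    rw [abs_mul, σ_abs, one_mul] at a2
    have a3 := mem_box.1 hy
    have a4 : |g.n| ≤ k := by rw [← Int.natCast_natAbs]; exact_mod_cast a1
    rw [mem_box, mul_n]
    push_cast
    linarith
  have h2 : ((box N).image (g * ·) \ box N).card ≤ 4 * k := by
    have := card_le_card (sdiff_subset_sdiff h1 (Subset.refl (box N)))
    rw [card_sdiff_of_subset (s := box N) (t := box (N + k)) (fun x hx => mem_box.2 ((mem_box.1 hx).trans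
      (by push_cast; omega))), card_box, card_box] at this
    omega
  have h3 : ((box N).image (g * ·) ∆ box N).card ≤ 8 * k := by
    have := card_union_le ((box N).image (g * ·) \ box N) (box N \ (box N).image (g * ·))
    rw [← card_sdiff_comm (card_image_of_injective _ (mul_right_injective g))] at this
    rw [symmDiff_def, sup_eq_union]
    omega
  have h4 : (((box N).image (g * ·) ∆ box N).card : ℝ) ≤ 8 * k := by exact_mod_cast h3
  rw [div_le_iff₀ hε] at hN
  convert h4.trans (_ : _ ≤ ε * (box N).card)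
  rw [card_box]
  push_cast
  nlinarith

def M : Type := Bool × ℤ_[2]

noncomputable instance : TopologicalSpace M := inferInstanceAs (TopologicalSpace (Bool × ℤ_[2]))
instance : CompactSpace M := inferInstanceAs (CompactSpace (Bool × ℤ_[2]))
instance : TopologicalSpace.MetrizableSpace M :=
  inferInstanceAs (TopologicalSpace.MetrizableSpace (Bool × ℤ_[2]))

noncomputable instance : MulAction D M where
  smul g x := (xor g.e x.1, g.n + σ g.e * x.2)
  one_smul x := Prod.ext (Bool.false_xor _) (by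
    show ((0 : ℤ) : ℤ_[2]) + (σ false : ℤ) * x.2 = x.2
    simp [σ])
  mul_smul g h x := Prod.ext (Bool.xor_assoc _ _ _) (by
    show (((g * h).n : ℤ) : ℤ_[2]) + (σ (g * h).e : ℤ) * x.2 = g.n + σ g.e * (h.n + σ h.e * x.2)
    simp only [mul_n, mul_e, σ_xor]
    push_cast
    ring)

lemma sm1 (g : D) (x : M) : (g • x).1 = xor g.e x.1 := rfl
lemma sm2 (g : D) (x : M) : (g • x).2 = g.n + σ g.e * x.2 := rfl

lemma cont (g : D) : Continuous fun x : M => g • x :=
  ((continuous_of_discreteTopology (f := xor g.e)).comp continuous_fst).prodMk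
    (continuous_const.add (continuous_const.mul continuous_snd))

noncomputable def c (g : D) : C(M, ℝ) := ⟨fun x => (g.n * σ g.e * σ x.1 : ℤ),
  (continuous_of_discreteTopology (f := fun b => ((g.n * σ g.e * σ b : ℤ) : ℝ))).comp
    continuous_fst⟩

lemma c_app (g : D) (x : M) : c g x = (g.n * σ g.e * σ x.1 : ℤ) := rfl

theorem result : ∃ (G : Type) (_ : Group G) (S : Finset G) (M : Type) (_ : MetricSpace M)
    (_ : CompactSpace M) (_ : MeasurableSpace M) (_ : BorelSpace M) (_ : MulAction G M)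
    (c : G → C(M, ℝ)),
    Subgroup.closure (S : Set G) = ⊤ ∧ (∀ s ∈ S, s⁻¹ ∈ S) ∧ 1 ∉ S ∧ Amen G ∧
    (∀ g : G, Continuous fun x : M => g • x) ∧ (∀ (g : G) (x : M), g • x = x → g = 1) ∧
    (∀ (g h : G) (x : M), c (g * h) x = c g (h • x) + c h x) ∧
    (∀ μ : Measure M, IsProbabilityMeasure μ → (∀ g : G, MeasurePreserving (g • ·) μ μ) →
      ∀ g, ∫ x, c g x ∂μ = 0) ∧
    ¬ ∀ ε : ℝ, 0 < ε → ∃ u : C(M, ℝ), ∀ s ∈ S, ∀ x, |c s x - (u (s • x) - u x)| ≤ ε := by
  classical
  let := TopologicalSpace.metrizableSpaceMetric M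
  let := borel M
  have : BorelSpace M := ⟨rfl⟩
  refine ⟨D, _, {⟨false, 1⟩, ⟨false, -1⟩, ⟨true, 0⟩}, M, _, inferInstance, _, this, _, c, ?_, ?_,
    by simp [D.ext_iff], amen, cont, fun g x h => ?_, fun g h x => ?_, fun μ _ h g => ?_, fun h => ?_⟩
  · rw [eq_top_iff]
    rintro ⟨e, n⟩ -
    set H := Subgroup.closure (({⟨false, 1⟩, ⟨false, -1⟩, ⟨true, 0⟩} : Finset D) : Set D)
    have h1 : ∀ n : ℤ, (⟨false, n⟩ : D) ∈ H := by
      intro n
      induction n using Int.induction_on with
      | zero => exact H.one_mem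
      | succ n ih =>
        convert H.mul_mem ih (Subgroup.subset_closure (by simp) : (⟨false, 1⟩ : D) ∈ H) using 1
        exact D.ext rfl (by simp [σ])
      | pred n ih =>
        convert H.mul_mem ih (Subgroup.subset_closure (by simp) : (⟨false, -1⟩ : D) ∈ H) using 1
        exact D.ext rfl (by simp [σ, sub_eq_add_neg])
    cases e
    · exact h1 n
    · convert H.mul_mem (h1 n) (Subgroup.subset_closure (by simp) : (⟨true, 0⟩ : D) ∈ H) using 1
      exact D.ext rfl (by simp)
  · intro s hs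
    simp only [mem_insert, mem_singleton] at hs
    rcases hs with rfl | rfl | rfl <;> simp [D.ext_iff, σ]
  · have h1 := congrArg Prod.fst h
    have h2 := congrArg Prod.snd h
    rw [sm1] at h1
    rw [sm2] at h2
    have h3 : g.e = false := by revert h1; cases g.e <;> cases x.1 <;> simp
    exact D.ext h3 (by simpa [h3, σ] using h2)
  · simp only [c_app, sm1, mul_n, mul_e, σ_xor]
    rw [← Int.cast_add]
    congr 1
    linear_combination (h.n * σ h.e * σ x.1) * σ_sq g.e
  · have h1 := integral_map (μ := μ) (h ⟨true, 0⟩).measurable.aemeasurable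
      (f := c g) (c g).continuous.aestronglyMeasurable
    rw [(h _).map_eq] at h1
    have h2 : ∫ x, c g ((⟨true, 0⟩ : D) • x) ∂μ = -∫ x, c g x ∂μ := by
      rw [← integral_neg]
      congr 1
      funext x
      simp [c_app, sm1, σ_xor, show σ (!x.1) = -σ x.1 by cases x.1 <;> rfl]
    linarith
  · obtain ⟨u, hu⟩ := h (1 / 2) (by norm_num)
    obtain ⟨z, -, hz⟩ := isCompact_univ.exists_isMaxOn Set.univ_nonempty
      (f := fun z : ℤ_[2] => u (false, z)) (u.continuous.comp (Continuous.prodMk_right _)).continuousOn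
    have h1 := (abs_le.1 (hu ⟨false, 1⟩ (by simp) (false, z))).2
    have h2 : u ((⟨false, 1⟩ : D) • (show M from (false, z))) ≤ u (false, z) :=
      hz (Set.mem_univ _)
    have h3 : c ⟨false, 1⟩ (false, z) = 1 := by simp [c_app, σ]
    linarith

end Pool.Agent.Results.MP_d52620_an.NotDense
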